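import Mathlib
import Pool.Agent.H51.DG

/-! # Complex discrete Gaussians with the same parameter and the same low moments

For every odd `g = 2k + 1` there are a real positive definite parameter `B` (a multiple of the Gram
matrix of the dual lattice `D_g^*`) and two points `u`, `u'` (the two characters of order four of
`D_g^* / D_g`) such that all moments of order at most `2k = g - 1` agree while the weight functions
differ.  With `g = 5` this answers the question in the negative: even the moments of order at most
four agree. -/

namespace Pool.Agent.Results.MP_405529_ag.OddDimNo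

open Pool.Agent.H51.DG

theorem result (k : ℕ) :
    ∃ (B : Matrix (Fin (2 * k + 1)) (Fin (2 * k + 1)) ℂ) (u u' : Fin (2 * k + 1) → ℂ),
      Siegel B ∧ theta u B ≠ 0 ∧ theta u' B ≠ 0 ∧
      (∀ α : Fin (2 * k + 1) → ℕ, ∑ i, α i ≤ 2 * k → moment α u B = moment α u' B) ∧
      ∃ n, wt u B n ≠ wt u' B n :=
  main (even_two_mul k)

end Pool.Agent.Results.MP_405529_ag.OddDimNo
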